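import Pool.Agent.Y922.AP.Stm

/-!
# AP-T3: a critical point with nonzero value
-/

set_option autoImplicit false

open Filter Topology Set

namespace Pool.Agent.Y697.AP

open Pool.Agent.Y922.AP

theorem t_T3 (h1 : S_STRIP) (h2 : S_ZERO) (h3 : S_SYM) : S_T3 := by
  intro X hX hXs
  obtain ⟨t₀, ht₀, hz⟩ := h2
  obtain ⟨hs1, hs2, -, hs4⟩ := h3
  have hval : ∀ t : ℝ, X (-(t : ℂ) ^ 2) = xi (1 / 2 + t * Complex.I) := by
    intro t
    rw [← hXs]
    congr 1
    have := Complex.I_sq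
    linear_combination (-(t : ℂ) ^ 2) * this
  -- the values are real
  have him : ∀ t : ℝ, (X (-(t : ℂ) ^ 2)).im = 0 := by
    intro t
    rw [hval]
    apply Complex.conj_eq_iff_im.1
    rw [← hs2, ← hs1 (1 / 2 + t * Complex.I)]
    congr 1
    simp only [map_add, map_mul, map_div₀, map_one, Complex.conj_ofReal, Complex.conj_I]
    have h2' : (starRingEnd ℂ) 2 = 2 := Complex.conj_ofNat 2
    rw [h2']
    ring
  -- the derivative
  have hder : ∀ t : ℝ, HasDerivAt (fun t : ℝ => X (-(t : ℂ) ^ 2))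
      (deriv X (-(t : ℂ) ^ 2) * (-(2 * (t : ℂ)))) t := by
    intro t
    have k1 : HasDerivAt (fun z : ℂ => -z ^ 2) (-(2 * (t : ℂ))) (t : ℂ) :=
      (hasDerivAt_pow 2 (t : ℂ)).neg.congr_deriv (by simp)
    have k2 : HasDerivAt X (deriv X (-(t : ℂ) ^ 2)) (-(t : ℂ) ^ 2) := (hX _).hasDerivAt
    exact (HasDerivAt.comp (t : ℂ) k2 k1).comp_ofReal
  have hcont : Continuous fun t : ℝ => (X (-(t : ℂ) ^ 2)).re :=
    Complex.continuous_re.comp (continuous_iff_continuousAt.2 fun t => (hder t).continuousAt)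
  -- some value to the right of `t₀` is not zero
  have hex : ∃ t₁ : ℝ, t₀ < t₁ ∧ X (-(t₁ : ℂ) ^ 2) ≠ 0 := by
    by_contra hcon
    push Not at hcon
    have hA : AnalyticOnNhd ℂ X univ := fun z _ => hX.analyticAt z
    have hfr : ∃ᶠ z in 𝓝[≠] (-((t₀ + 1 : ℝ) : ℂ) ^ 2), X z = 0 := by
      have ht : Tendsto (fun t : ℝ => -(t : ℂ) ^ 2) (𝓝[>] (t₀ + 1))
          (𝓝[≠] (-((t₀ + 1 : ℝ) : ℂ) ^ 2)) := by
        apply tendsto_nhdsWithin_iff.2
        constructor
        · have hc : Continuous fun t : ℝ => -(t : ℂ) ^ 2 := by fun_prop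
          exact (hc.tendsto _).mono_left nhdsWithin_le_nhds
        · filter_upwards [self_mem_nhdsWithin] with t ht
          intro h
          have h5 : ((t : ℂ)) ^ 2 = ((t₀ + 1 : ℝ) : ℂ) ^ 2 := neg_injective h
          have h6 : t ^ 2 = (t₀ + 1) ^ 2 := by exact_mod_cast h5
          have h7 : t₀ + 1 < t := ht
          nlinarith
      refine ht.frequently ?_
      have h5 : ∀ᶠ t : ℝ in 𝓝[>] (t₀ + 1), X (-(t : ℂ) ^ 2) = 0 := by
        filter_upwards [self_mem_nhdsWithin] with t ht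
        have h7 : t₀ + 1 < t := ht
        exact hcon t (by linarith)
      exact h5.frequently
    have h8 := hA.eqOn_zero_of_preconnected_of_frequently_eq_zero isPreconnected_univ
      (mem_univ _) hfr (mem_univ ((1 - 1 / 2 : ℂ) ^ 2))
    rw [hXs, hs4] at h8
    norm_num at h8
  obtain ⟨t₁, ht₁, hne⟩ := hex
  have hc0 : 0 < ‖X (-(t₁ : ℂ) ^ 2)‖ := norm_pos_iff.2 hne
  obtain ⟨T, hT⟩ := h1 ‖X (-(t₁ : ℂ) ^ 2)‖ (1 / 2) hc0
  set T' := max T t₁ + 1 with hT'
  have hT1 : T ≤ T' := by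
    have := le_max_left T t₁
    linarith
  have hT2 : t₁ < T' := by
    have := le_max_right T t₁
    linarith
  have hnorm : ∀ t : ℝ, ‖X (-(t : ℂ) ^ 2)‖ = |(X (-(t : ℂ) ^ 2)).re| := by
    intro t
    have h5 : X (-(t : ℂ) ^ 2) = (((X (-(t : ℂ) ^ 2)).re : ℝ) : ℂ) := by
      apply Complex.ext
      · simp
      · rw [him t]; simp
    conv_lhs => rw [h5]
    rw [Complex.norm_real, Real.norm_eq_abs]
  have hT'0 : |(X (-(T' : ℂ) ^ 2)).re| < |(X (-(t₁ : ℂ) ^ 2)).re| := by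
    rw [← hnorm, ← hnorm, hval T']
    apply hT
    · simp
    · have : (1 / 2 + (T' : ℂ) * Complex.I).im = T' := by simp
      rw [this]
      exact hT1.trans (le_abs_self _)
  -- the maximum
  obtain ⟨s, hs, hmax⟩ := (isCompact_Icc (a := t₀) (b := T')).exists_isMaxOn
    ⟨t₁, ht₁.le, hT2.le⟩ (hcont.abs.continuousOn)
  have hm : ∀ t ∈ Icc t₀ T', |(X (-(t : ℂ) ^ 2)).re| ≤ |(X (-(s : ℂ) ^ 2)).re| := hmax
  have hsv : 0 < |(X (-(s : ℂ) ^ 2)).re| := by
    refine lt_of_lt_of_le ?_ (hm t₁ ⟨ht₁.le, hT2.le⟩)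
    rw [← hnorm]
    exact hc0
  have hs0 : t₀ < s := by
    refine lt_of_le_of_ne hs.1 ?_
    rintro rfl
    rw [hval, hz] at hsv
    simp at hsv
  have hs1' : s < T' := by
    refine lt_of_le_of_ne hs.2 ?_
    intro h
    have := hm t₁ ⟨ht₁.le, hT2.le⟩
    rw [h] at this
    linarith
  -- a local extremum
  have hnb : ∀ᶠ t in 𝓝 s, t ∈ Icc t₀ T' := Icc_mem_nhds hs0 hs1'
  have hext : IsLocalExtr (fun t : ℝ => (X (-(t : ℂ) ^ 2)).re) s := by
    rcases lt_or_ge 0 (X (-(s : ℂ) ^ 2)).re with h | h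
    · right
      filter_upwards [hnb] with t ht
      have := hm t ht
      rw [abs_of_pos h] at this
      exact (le_abs_self _).trans this
    · left
      filter_upwards [hnb] with t ht
      have := hm t ht
      rw [abs_of_nonpos h] at this
      have h5 := neg_abs_le ((X (-(t : ℂ) ^ 2)).re)
      change (X (-(s : ℂ) ^ 2)).re ≤ (X (-(t : ℂ) ^ 2)).re
      linarith
  have hre : HasDerivAt (fun t : ℝ => (X (-(t : ℂ) ^ 2)).re)
      (deriv X (-(s : ℂ) ^ 2) * (-(2 * (s : ℂ)))).re s := by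
    have h5 : HasFDerivAt (fun z : ℂ => z.re) Complex.reCLM (X (-(s : ℂ) ^ 2)) :=
      Complex.reCLM.hasFDerivAt
    exact h5.comp_hasDerivAt s (hder s)
  have himd : HasDerivAt (fun t : ℝ => (X (-(t : ℂ) ^ 2)).im)
      (deriv X (-(s : ℂ) ^ 2) * (-(2 * (s : ℂ)))).im s := by
    have h5 : HasFDerivAt (fun z : ℂ => z.im) Complex.imCLM (X (-(s : ℂ) ^ 2)) :=
      Complex.imCLM.hasFDerivAt
    exact h5.comp_hasDerivAt s (hder s)
  have hd1 : (deriv X (-(s : ℂ) ^ 2) * (-(2 * (s : ℂ)))).re = 0 := by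
    rw [← hre.deriv]
    exact hext.deriv_eq_zero
  have hd2 : (deriv X (-(s : ℂ) ^ 2) * (-(2 * (s : ℂ)))).im = 0 := by
    have h5 : HasDerivAt (fun t : ℝ => (X (-(t : ℂ) ^ 2)).im) 0 s := by
      have h6 : (fun t : ℝ => (X (-(t : ℂ) ^ 2)).im) = fun _ => 0 := funext him
      rw [h6]
      exact hasDerivAt_const _ _
    exact himd.unique h5
  have hd3 : deriv X (-(s : ℂ) ^ 2) * (-(2 * (s : ℂ))) = 0 := Complex.ext hd1 hd2
  refine ⟨-(s : ℂ) ^ 2, ?_, ?_⟩
  · rcases mul_eq_zero.1 hd3 with h | h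
    · exact h
    · exfalso
      have h5 : (s : ℂ) = 0 := by
        have := neg_eq_zero.1 h
        rcases mul_eq_zero.1 this with h6 | h6
        · norm_num at h6
        · exact h6
      have h6 : s = 0 := by exact_mod_cast h5
      linarith
  · intro h
    rw [h] at hsv
    simp at hsv

end Pool.Agent.Y697.AP
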