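import Pool.Agent.Y922.AP.Stm

/-!
# AP-UNIQ: uniqueness of lifts
-/

set_option autoImplicit false

open Filter Topology Set

namespace Pool.Agent.Y697.AP

open Pool.Agent.Y922.AP

theorem t_UNIQ : S_UNIQ := by
  intro X lam I σ τ hX hI hσ hτ hN x₀ hx₀ h0 x hx
  by_cases hne : x = x₀
  · rw [hne, h0]
  -- the functions agree near `x₀` on `I`
  have hd : deriv X (σ x₀) ≠ 0 := hN x₀ hx₀ _ (hσ.2 x₀ hx₀)
  have hstr : HasStrictDerivAt X (deriv X (σ x₀)) (σ x₀) :=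
    (hX.analyticAt (σ x₀)).hasStrictDerivAt
  have hli := hstr.eventually_left_inverse hd
  have hcσ : ContinuousAt σ x₀ := (hσ.1 x₀ hx₀).continuousAt
  have hcτ : ContinuousAt τ x₀ := (hτ.1 x₀ hx₀).continuousAt
  have e1 := hcσ.eventually hli
  have hcτ' : Tendsto τ (𝓝 x₀) (𝓝 (σ x₀)) := by
    rw [h0]
    exact hcτ
  have e2 := hcτ'.eventually hli
  have e3 : ∀ᶠ t in 𝓝 x₀, t ∈ I → σ t = τ t := by
    filter_upwards [e1, e2] with t h1 h2 hI
    rw [← h1, ← h2, hσ.2 t hI, hτ.2 t hI]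
  -- `x₀` is an accumulation point of `I`
  have e4 : ∃ᶠ t in 𝓝[≠] x₀, σ t = τ t := by
    rcases lt_or_gt_of_ne hne with h | h
    · have h5 : ∀ᶠ t in 𝓝[<] x₀, σ t = τ t := by
        have h6 : Ioo x x₀ ∈ 𝓝[<] x₀ := Ioo_mem_nhdsLT h
        filter_upwards [e3.filter_mono nhdsWithin_le_nhds, h6] with t h1 h2
        exact h1 (hI.out hx hx₀ ⟨h2.1.le, h2.2.le⟩)
      exact h5.frequently.filter_mono (nhdsWithin_mono _ fun t ht => ne_of_lt ht)
    · have h5 : ∀ᶠ t in 𝓝[>] x₀, σ t = τ t := by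
        have h6 : Ioo x₀ x ∈ 𝓝[>] x₀ := Ioo_mem_nhdsGT h
        filter_upwards [e3.filter_mono nhdsWithin_le_nhds, h6] with t h1 h2
        exact h1 (hI.out hx₀ hx ⟨h2.1.le, h2.2.le⟩)
      exact h5.frequently.filter_mono (nhdsWithin_mono _ fun t ht => ne_of_gt ht)
  have hA : AnalyticOnNhd ℝ σ I := hσ.1
  have hB : AnalyticOnNhd ℝ τ I := hτ.1
  exact hA.eqOn_of_preconnected_of_frequently_eq hB hI.isPreconnected hx₀ e4 hx

end Pool.Agent.Y697.AP
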